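import Pool.Agent.H11.NS.Targets
import Pool.Agent.H1.NS.CH
import Pool.Agent.H18.NS.CL
import Pool.Agent.H18.NS.F2
import Pool.Agent.H3.NS.EI
import Pool.Agent.H33.NS.EN
import Pool.Agent.H48.NS.CF
import Pool.Agent.H48.NS.FP
import Pool.Agent.H48.NS.WA
import Pool.Agent.H49.NS.G8
import Pool.Agent.H49.NS.UA
import Pool.Agent.H50.NS.OM
import Pool.Agent.H51.NS.PK
import Pool.Agent.H54.NS.F4
import Pool.Agent.H65.NS.SWX
import Pool.Agent.H66.NS.F3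
import Pool.Agent.H66.NS.QC
import Pool.Agent.H67.NS.EM
import Pool.Agent.H67.NS.KA1
import Pool.Agent.H67.NS.KA2
import Pool.Agent.H69.NS.F1
import Pool.Agent.H69.NS.OR1
import Pool.Agent.H74.NS.AI
import Pool.Agent.H74.NS.RH
import Pool.Agent.H84.NS.EJ
import Pool.Agent.H85.NS.CL1
import Pool.Agent.H85.NS.NL
import Pool.Agent.H86.NS.CO
import Pool.Agent.H86.NS.FI
import Pool.Agent.H86.NS.FIN
import Pool.Agent.H91.NS.KI
import Pool.Agent.H91.NS.OR2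
import Pool.Agent.H47.NS.ZF

/-!
# Assembly of the board ns_modules (MP_9b2842_al)
-/

set_option autoImplicit false

namespace Pool.Agent.H11.NS

theorem all_nl : T_NL :=
  Pool.Agent.H85.NS.pf_nl Pool.Agent.H48.CF.pf_cf
    (Pool.Agent.H67.NS.pf_ka1 Pool.Agent.H48.CF.pf_cf Pool.Agent.H65.NSSW.pf_swx)
    Pool.Agent.H67.NS.pf_ka2
    (Pool.Agent.H67.NS.EM.pf_em pf_ei Pool.Agent.H48.CF.pf_cf Pool.Agent.H65.NSSW.pf_swx
      Pool.Agent.H65.NSSW.pf_swy)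
    (Pool.Agent.H33.NS.pf_en Pool.Agent.H84.NSEJ.pf_ej Pool.Agent.H48.CF.pf_cf
      Pool.Agent.H65.NSSW.pf_swx Pool.Agent.H65.NSSW.pf_swy)
    Pool.Agent.H86.NS.pf_co

theorem all_cl : T_CL :=
  Pool.Agent.H18.NSCL.pf_cl Pool.Agent.H48.NSFP.pf_fp Pool.Agent.H50.NS.pf_om all_nl
    Pool.Agent.H85.NS.pf_cl1 Pool.Agent.H74.NS.RH.pf_rh

theorem all_g8 : T_G8 :=
  Pool.Agent.H49.NS.G8.pf_g8
    (Pool.Agent.H91.NS.OR2.pf_or2 Pool.Agent.H48.NSFP.pf_fp Pool.Agent.H69.NS.pf_or1)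
    Pool.Agent.H74.NS.AI.pf_ai

theorem all_ua : T_UA :=
  Pool.Agent.H49.NS.UA.pf_ua pf_ch Pool.Agent.H51.NS.PK.pf_pk
    (Pool.Agent.H66.NS.QC.pf_qc all_cl) all_g8 Pool.Agent.H91.NS.KI.pf_ki
    Pool.Agent.H48.WA.pf_wa

theorem all_fin : T_FIN :=
  Pool.Agent.H86.NS.pf_fin Pool.Agent.H86.NS.pf_fi Pool.Agent.H69.NS.pf_f1
    Pool.Agent.H18.NSF2.pf_f2 (Pool.Agent.H66.NS.F3.pf_f3 Pool.Agent.H47.NS.pf_zf)
    Pool.Agent.H54.NS.F4.pf_f4 all_ua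

end Pool.Agent.H11.NS
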