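import Pool.Agent.H11.NS.All

/-!
# MP_9b2842_al: alternating type with kernels (nilpotent) times (`π`-group)

Let `π` be a finite set of primes and `G` a simple group such that every finite subset of `G` lies
in a finite subgroup `L` with a homomorphism onto an alternating group of arbitrarily large degree
whose kernel is the product of a nilpotent group and a `π`-group that commute. Then some
non-identity element of `G` has a centralizer which is not almost soluble.
-/

set_option autoImplicit false

namespace Pool.Agent.H11.NS.AlternatingNilpotent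

theorem result (π : Finset ℕ) (G : Type) [Group G] (hG : IsSimpleGroup G)
    (hcover : ∀ (F : Finset G) (k : ℕ), ∃ (L : Subgroup G) (n : ℕ)
      (φ : L →* alternatingGroup (Fin n)), Finite L ∧ Function.Surjective φ ∧
        (∃ A B : Subgroup L, φ.ker = A ⊔ B ∧ (∀ a ∈ A, ∀ b ∈ B, a * b = b * a) ∧
          Group.IsNilpotent A ∧ ∀ p : ℕ, p.Prime → p ∣ Nat.card B → p ∈ π) ∧
        (∀ x ∈ F, x ∈ L) ∧ k ≤ n) :
    ∃ g : G, g ≠ 1 ∧ ∀ H : Subgroup (Subgroup.centralizer ({g} : Set G)),
      H.index ≠ 0 → ¬ Group.IsSolvable H := by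
  have h := Pool.Agent.H11.NS.all_fin G π (by
    intro F k
    obtain ⟨L, n, φ, h1, h2, h3, h4, h5⟩ := hcover F k
    exact ⟨L, n, φ, ⟨h1, h2, h3⟩, h4, h5⟩)
  by_contra hcon
  apply h
  intro g hg
  by_contra h6
  apply hcon
  refine ⟨g, hg, ?_⟩
  intro H h7 h8
  exact h6 ⟨H, h7, h8⟩

end Pool.Agent.H11.NS.AlternatingNilpotent
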