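import Mathlib

/-!
# Simple locally finite groups of alternating type (MP_9b2842_al): definitions for the modules

`Good π L n φ`: `L` is a finite subgroup, `φ : L → Alt(n)` is onto and its kernel is a product of
two commuting subgroups, one nilpotent and one a `π`-group.
-/

set_option autoImplicit false

namespace Pool.Agent.H11.NS

/-- finite subgroup with an alternating quotient whose kernel is (nilpotent) times (`π`-group) -/
def Good {G : Type*} [Group G] (π : Finset ℕ) (L : Subgroup G) (n : ℕ)
    (φ : L →* alternatingGroup (Fin n)) : Prop :=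
  Finite L ∧ Function.Surjective φ ∧
    ∃ A B : Subgroup L, φ.ker = A ⊔ B ∧ (∀ a ∈ A, ∀ b ∈ B, a * b = b * a) ∧
      Group.IsNilpotent A ∧ ∀ p : ℕ, p.Prime → p ∣ Nat.card B → p ∈ π

/-- the group is covered by good subgroups of large degree -/
def Cover (G : Type*) [Group G] (π : Finset ℕ) : Prop :=
  ∀ (F : Finset G) (k : ℕ), ∃ (L : Subgroup G) (n : ℕ) (φ : L →* alternatingGroup (Fin n)),
    Good π L n φ ∧ (∀ x ∈ F, x ∈ L) ∧ k ≤ n

/-- every centralizer of a non-identity element is almost soluble -/
def AS (G : Type*) [Group G] : Prop :=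
  ∀ g : G, g ≠ 1 → ∃ H : Subgroup (Subgroup.centralizer ({g} : Set G)),
    H.index ≠ 0 ∧ Group.IsSolvable H

end Pool.Agent.H11.NS
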