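import Pool.Agent.H11.NS.Defs

/-!
# Targets of the board ns_modules (MP_9b2842_al)

Every module `XX` proves `pf_xx : T_A → T_B → ... → T_XX` (the dependencies of the row are
hypotheses), so all modules can be written in parallel.
-/

set_option autoImplicit false
set_option linter.unusedVariables false

open Equiv (Perm)

namespace Pool.Agent.H11.NS

def T_CH : Prop := ∀ (G : Type) [Group G] (S : Subgroup G) (a h : G) (e ℓ : ℕ), ℓ.Prime →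
    ℓ ≠ 3 → a ^ 3 = 1 → (∀ x ∈ S, a * x = x * a) →
    h ∈ (derivedSeries S e).map S.subtype →
    (derivedSeries S (e + 1)).map S.subtype ≤ Subgroup.zpowers a →
    0 < orderOf h → ¬ ℓ ∣ orderOf h → ∀ M : Subgroup G,
    (∀ x ∈ M, ∃ k : ℕ, x ^ (ℓ ^ k) = 1) → (∀ x ∈ M, h * x * h⁻¹ ∈ M) →
    (∀ x ∈ M, a * x = x * a → x ∈ S) →
    ∀ x ∈ M, a * x = x * a → h * x = x * h

def T_FP : Prop := ∀ (X : Type) [Group X] [Finite X] (K : Subgroup X), K.Normal →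
    ∀ q : ℕ, q.Prime → ¬ q ∣ Nat.card K → ∀ g : X, (∃ k : ℕ, g ^ (q ^ k) = 1) → ∀ x : X,
    g * x * g⁻¹ * x⁻¹ ∈ K → ∃ k ∈ K, g * (x * k) = (x * k) * g

def T_OM : Prop := ∀ (ℓ : ℕ) [Fact ℓ.Prime], ℓ % 3 = 1 →
    (3 : ZMod ℓ) ≠ 0 ∧ ∃ ω : ZMod ℓ, ω ^ 3 = 1 ∧ ω ≠ 1

def T_EI : Prop := ∀ (F W : Type) [Field F] [AddCommGroup W] [Module F W] (ω : F),
    ω ^ 3 = 1 → ω ≠ 1 → (3 : F) ≠ 0 → ∀ (s : Fin 4 → Module.End F W) (b : Module.End F W),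
    (∀ i, s i ^ 3 = 1) → b ^ 3 = 1 → (∀ i j, Commute (s i) (s j)) → (∀ i, Commute (s i) b) →
    (∀ ε : Fin 4 → ℕ, (∀ i, ε i = 1 ∨ ε i = 2) → ∀ v : W,
      (s 0 ^ ε 0) ((s 1 ^ ε 1) ((s 2 ^ ε 2) ((s 3 ^ ε 3) (b v)))) = v →
        ∀ i j, (s i ^ ε i) v = (s j ^ ε j) v) →
    ∀ v, s 0 (s 1 v) - s 0 v - s 1 v + v = 0

def T_EJ : Prop := ∀ (F W : Type) [Field F] [AddCommGroup W] [Module F W] (ω : F),
    ω ^ 3 = 1 → ω ≠ 1 → (3 : F) ≠ 0 → ∀ (s : Fin 4 → Module.End F W) (b : Module.End F W),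
    (∀ i, s i ^ 3 = 1) → b ^ 3 = 1 → (∀ i j, Commute (s i) (s j)) → (∀ i, Commute (s i) b) →
    (∀ i j k : Fin 4, i ≠ j → k ≠ i → k ≠ j → ∀ α β : ℕ, (α = 1 ∨ α = 2) →
      (β = 1 ∨ β = 2) → ∀ v : W, (s i ^ α) ((s j ^ β) (b v)) = v → s k v = v) →
    ∀ v, s 0 (s 1 v) - s 0 v - s 1 v + v = 0

def T_SWX : Prop := ∀ (Ω : Type) [Fintype Ω] [DecidableEq Ω] (c d : Perm Ω),
    c.IsThreeCycle → d.IsThreeCycle → Equiv.Perm.Disjoint c d →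
    ∃ w : Perm Ω, Equiv.Perm.sign w = -1 ∧ w * w = 1 ∧ w * c * w⁻¹ = d ∧ w * d * w⁻¹ = c ∧
      ∀ x : Perm Ω, Equiv.Perm.Disjoint x c → Equiv.Perm.Disjoint x d → w * x = x * w

def T_SWY : Prop := ∀ (Ω : Type) [Fintype Ω] [DecidableEq Ω] (c : Perm Ω), c.IsThreeCycle →
    ∃ f : Perm Ω, Equiv.Perm.sign f = -1 ∧ f * f = 1 ∧ f * c * f⁻¹ = c⁻¹ ∧
      ∀ x : Perm Ω, Equiv.Perm.Disjoint x c → f * x = x * f

def T_CF : Prop := ∀ (Ω : Type) [Fintype Ω] [DecidableEq Ω] (a : Perm Ω), a ^ 3 = 1 →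
    (∀ c ∈ a.cycleFactorsFinset, c.IsThreeCycle) ∧
      3 * a.cycleFactorsFinset.card = a.support.card ∧
      ∀ T : Finset (Perm Ω), T ⊆ a.cycleFactorsFinset → ∃ b : Perm Ω, b ^ 3 = 1 ∧
        (∀ c ∈ T, Equiv.Perm.Disjoint b c) ∧
        (∀ x : Perm Ω, Equiv.Perm.Disjoint x a → Equiv.Perm.Disjoint x b) ∧
        ∀ l : List (Perm Ω), l.Nodup → l.toFinset = T → a = l.prod * b

def T_KA1 : Prop := ∀ (Ω : Type) [Fintype Ω] [DecidableEq Ω] (a h : Perm Ω), a ^ 3 = 1 →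
    a * h = h * a → 18 ≤ a.support.card → ∀ R : Subgroup (Perm Ω), h ∈ R →
    (∀ x ∈ alternatingGroup Ω, a * x = x * a → ∀ k ∈ R, x * k * x⁻¹ ∈ R) →
    (∃ σ ∈ a.cycleFactorsFinset, ∃ τ ∈ a.cycleFactorsFinset, σ ≠ τ ∧ σ * τ⁻¹ ∈ R) ∨
      ∃ κ < 3, Equiv.Perm.Disjoint (h * a ^ κ) a

def T_KA2 : Prop := ∀ (Ω : Type) [Fintype Ω] [DecidableEq Ω] (a k : Perm Ω)
    (R : Subgroup (Perm Ω)), k ∈ R → k ∈ alternatingGroup Ω → Equiv.Perm.Disjoint k a →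
    5 ≤ k.support.card →
    (∀ x ∈ alternatingGroup Ω, a * x = x * a → ∀ k ∈ R, x * k * x⁻¹ ∈ R) →
    ∀ ρ : Perm Ω, ρ.IsThreeCycle → Equiv.Perm.Disjoint ρ a → ρ ∈ R

def T_EM : Prop := ∀ (Ω : Type) [Fintype Ω] [DecidableEq Ω] (F W : Type) [Field F]
    [AddCommGroup W] [Module F W] (ω : F), ω ^ 3 = 1 → ω ≠ 1 → (3 : F) ≠ 0 →
    ∀ (ρ : alternatingGroup Ω →* Module.End F W) (a : alternatingGroup Ω), a ^ 3 = 1 →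
    18 ≤ (a : Perm Ω).support.card → ∀ σ τ : Perm Ω,
    σ ∈ (a : Perm Ω).cycleFactorsFinset → τ ∈ (a : Perm Ω).cycleFactorsFinset → σ ≠ τ →
    ∀ hev : σ * τ⁻¹ ∈ alternatingGroup Ω, (∀ v, ρ a v = v → ρ ⟨σ * τ⁻¹, hev⟩ v = v) →
    ∃ t t' : alternatingGroup Ω, (t : Perm Ω).IsThreeCycle ∧ (t' : Perm Ω).IsThreeCycle ∧
      Equiv.Perm.Disjoint (t : Perm Ω) (t' : Perm Ω) ∧
      ∀ v, ρ t (ρ t' v) - ρ t v - ρ t' v + v = 0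

def T_EN : Prop := ∀ (Ω : Type) [Fintype Ω] [DecidableEq Ω] (F W : Type) [Field F]
    [AddCommGroup W] [Module F W] (ω : F), ω ^ 3 = 1 → ω ≠ 1 → (3 : F) ≠ 0 →
    ∀ (ρ : alternatingGroup Ω →* Module.End F W) (a : alternatingGroup Ω), a ^ 3 = 1 →
    18 ≤ (a : Perm Ω).support.card → ∀ d d' : alternatingGroup Ω,
    (d : Perm Ω).IsThreeCycle → (d' : Perm Ω).IsThreeCycle →
    Equiv.Perm.Disjoint (d : Perm Ω) (d' : Perm Ω) →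
    Equiv.Perm.Disjoint (d : Perm Ω) (a : Perm Ω) →
    Equiv.Perm.Disjoint (d' : Perm Ω) (a : Perm Ω) →
    (∀ v, ρ a v = v → ρ d v = v) → (∀ v, ρ a v = v → ρ d' v = v) →
    ∃ t t' : alternatingGroup Ω, (t : Perm Ω).IsThreeCycle ∧ (t' : Perm Ω).IsThreeCycle ∧
      Equiv.Perm.Disjoint (t : Perm Ω) (t' : Perm Ω) ∧
      ∀ v, ρ t (ρ t' v) - ρ t v - ρ t' v + v = 0

def T_CO : Prop := ∀ (Ω : Type) [Fintype Ω] [DecidableEq Ω] (F W : Type) [Field F]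
    [AddCommGroup W] [Module F W] (ρ : alternatingGroup Ω →* Module.End F W),
    8 ≤ Fintype.card Ω → ∀ t t' r r' : alternatingGroup Ω, (t : Perm Ω).IsThreeCycle →
    (t' : Perm Ω).IsThreeCycle → Equiv.Perm.Disjoint (t : Perm Ω) (t' : Perm Ω) →
    (r : Perm Ω).IsThreeCycle → (r' : Perm Ω).IsThreeCycle →
    Equiv.Perm.Disjoint (r : Perm Ω) (r' : Perm Ω) →
    (∀ v, ρ t (ρ t' v) - ρ t v - ρ t' v + v = 0) →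
    ∀ v, ρ r (ρ r' v) - ρ r v - ρ r' v + v = 0

def T_NL : Prop := ∀ (Ω : Type) [Fintype Ω] [DecidableEq Ω] (F W : Type) [Field F]
    [AddCommGroup W] [Module F W] (ω : F), ω ^ 3 = 1 → ω ≠ 1 → (3 : F) ≠ 0 →
    ∀ (ρ : alternatingGroup Ω →* Module.End F W) (a h : alternatingGroup Ω), a ^ 3 = 1 →
    a * h = h * a → (∀ v, ρ a v = v → ρ h v = v) → 18 ≤ (a : Perm Ω).support.card →
    (∀ κ < 3, 18 ≤ ((h : Perm Ω) * (a : Perm Ω) ^ κ).support.card) →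
    ∀ t t' : alternatingGroup Ω, (t : Perm Ω).IsThreeCycle → (t' : Perm Ω).IsThreeCycle →
    Equiv.Perm.Disjoint (t : Perm Ω) (t' : Perm Ω) →
    ∀ v, ρ t (ρ t' v) - ρ t v - ρ t' v + v = 0

def T_CL1 : Prop := ∀ (H : Type) [Group H] (V : Subgroup H), V.Normal → ∀ ℓ : ℕ, ℓ.Prime →
    ℓ ≠ 3 → (∀ x ∈ V, ∀ y ∈ V, x * y = y * x) → (∀ x ∈ V, x ^ ℓ = 1) →
    ∀ t t' : H, (∃ k : ℕ, t ^ (3 ^ k) = 1) → (∃ k : ℕ, t' ^ (3 ^ k) = 1) →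
    t * t' * t⁻¹ * t'⁻¹ ∈ V →
    (∀ v ∈ V, t * (t' * v * t'⁻¹ * v⁻¹) * t⁻¹ = t' * v * t'⁻¹ * v⁻¹) →
    t * t' = t' * t

def T_RH : Prop := ∀ (H A : Type) [Group H] [Group A] (ψ : H →* A),
    Function.Surjective ψ → ∀ (V : Subgroup H) (hV : V.Normal) (ℓ : ℕ),
    (∀ x ∈ V, ∀ y ∈ V, x * y = y * x) → (∀ x ∈ V, x ^ ℓ = 1) →
    (∀ x ∈ ψ.ker, ∀ v ∈ V, x * v * x⁻¹ = v) →
    ∃ (W : Type) (_ : AddCommGroup W) (_ : Module (ZMod ℓ) W)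
      (ρ : A →* Module.End (ZMod ℓ) W) (f : V ≃ W), (∀ x y : V, f (x * y) = f x + f y) ∧
      ∀ (x : H) (v : V), ρ (ψ x) (f v) = f ⟨x * (v : H) * x⁻¹, hV.conj_mem v v.2 x⟩

def T_CL : Prop := ∀ (Ω : Type) [Fintype Ω] [DecidableEq Ω] (ℓ : ℕ), ℓ.Prime →
    ℓ % 3 = 1 → ∀ (H : Type) [Group H] [Finite H] (ψ : H →* alternatingGroup Ω),
    Function.Surjective ψ → IsPGroup ℓ ψ.ker → ∀ a h : H, a ^ 3 = 1 → a * h = h * a →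
    (∀ x ∈ ψ.ker, a * x = x * a → h * x = x * h) → 18 ≤ (ψ a : Perm Ω).support.card →
    (∀ κ < 3, 18 ≤ ((ψ h : Perm Ω) * (ψ a : Perm Ω) ^ κ).support.card) →
    ∀ t t' : H, (∃ k : ℕ, t ^ (3 ^ k) = 1) → (∃ k : ℕ, t' ^ (3 ^ k) = 1) →
    (ψ t : Perm Ω).IsThreeCycle → (ψ t' : Perm Ω).IsThreeCycle →
    Equiv.Perm.Disjoint (ψ t : Perm Ω) (ψ t' : Perm Ω) → t * t' = t' * t

def T_PK : Prop := ∀ (L : Type) [Group L] [Finite L] (N A B : Subgroup L), N.Normal →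
    N = A ⊔ B → (∀ a ∈ A, ∀ b ∈ B, a * b = b * a) → Group.IsNilpotent A →
    ∀ ℓ : ℕ, ℓ.Prime → ¬ ℓ ∣ Nat.card B →
    ∃ P K : Subgroup L, P.Normal ∧ K.Normal ∧ P ⊔ K = N ∧ IsPGroup ℓ P ∧ ¬ ℓ ∣ Nat.card K

def T_QC : Prop := ∀ (L : Type) [Group L] [Finite L] (Ω : Type) [Fintype Ω]
    [DecidableEq Ω] (φ : L →* alternatingGroup Ω), Function.Surjective φ →
    ∀ P K : Subgroup L, P.Normal → K.Normal → P ⊔ K = φ.ker → ∀ ℓ : ℕ, ℓ.Prime →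
    ℓ % 3 = 1 → IsPGroup ℓ P → ¬ ℓ ∣ Nat.card K → ∀ a h : L, a ^ 3 = 1 → a * h = h * a →
    (∀ x ∈ P, a * x = x * a → h * x = x * h) → 18 ≤ (φ a : Perm Ω).support.card →
    (∀ κ < 3, 18 ≤ ((φ h : Perm Ω) * (φ a : Perm Ω) ^ κ).support.card) →
    ∀ t t' : L, (∃ k : ℕ, t ^ (3 ^ k) ∈ K) → (∃ k : ℕ, t' ^ (3 ^ k) ∈ K) →
    (φ t : Perm Ω).IsThreeCycle → (φ t' : Perm Ω).IsThreeCycle →
    Equiv.Perm.Disjoint (φ t : Perm Ω) (φ t' : Perm Ω) → t * t' * t⁻¹ * t'⁻¹ ∈ K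

def T_OR1 : Prop := ∀ (Ω : Type) [Fintype Ω] [DecidableEq Ω] (γ : Perm Ω) (ℓ : ℕ),
    ℓ.Prime → γ ^ ℓ = 1 → ∀ c₁ c₂ c₃ : Perm Ω, c₁ ∈ γ.cycleFactorsFinset →
    c₂ ∈ γ.cycleFactorsFinset → c₃ ∈ γ.cycleFactorsFinset → c₁ ≠ c₂ → c₁ ≠ c₃ → c₂ ≠ c₃ →
    ∃ τ T : Perm Ω, τ.IsThreeCycle ∧
      (∀ i < ℓ, ∀ j < ℓ, i ≠ j → Equiv.Perm.Disjoint (γ ^ i * τ * (γ ^ i)⁻¹)
        (γ ^ j * τ * (γ ^ j)⁻¹)) ∧
      T = ((List.range ℓ).map fun j => γ ^ j * τ * (γ ^ j)⁻¹).prod ∧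
      T * c₁ * T⁻¹ = c₂ ∧ T * c₂ * T⁻¹ = c₃ ∧ T * c₃ * T⁻¹ = c₁ ∧
      ∀ c ∈ γ.cycleFactorsFinset, c ≠ c₁ → c ≠ c₂ → c ≠ c₃ → T * c * T⁻¹ = c

def T_OR2 : Prop := ∀ (L : Type) [Group L] [Finite L] (Ω : Type) [Fintype Ω]
    [DecidableEq Ω] (φ : L →* alternatingGroup Ω), Function.Surjective φ →
    ∀ K : Subgroup L, K.Normal → K ≤ φ.ker → ∀ ℓ : ℕ, ℓ.Prime → ¬ ℓ ∣ Nat.card K →
    (∀ t t' : L, (∃ k : ℕ, t ^ (3 ^ k) ∈ K) → (∃ k : ℕ, t' ^ (3 ^ k) ∈ K) →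
      (φ t : Perm Ω).IsThreeCycle → (φ t' : Perm Ω).IsThreeCycle →
      Equiv.Perm.Disjoint (φ t : Perm Ω) (φ t' : Perm Ω) → t * t' * t⁻¹ * t'⁻¹ ∈ K) →
    ∀ g : L, g ^ ℓ = 1 → ∀ c₁ c₂ c₃ : Perm Ω, c₁ ∈ (φ g : Perm Ω).cycleFactorsFinset →
    c₂ ∈ (φ g : Perm Ω).cycleFactorsFinset → c₃ ∈ (φ g : Perm Ω).cycleFactorsFinset →
    c₁ ≠ c₂ → c₁ ≠ c₃ → c₂ ≠ c₃ →
    ∃ s : L, s * g = g * s ∧ (φ s : Perm Ω) * c₁ * (φ s : Perm Ω)⁻¹ = c₂ ∧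
      (φ s : Perm Ω) * c₂ * (φ s : Perm Ω)⁻¹ = c₃ ∧
      (φ s : Perm Ω) * c₃ * (φ s : Perm Ω)⁻¹ = c₁ ∧
      ∀ c ∈ (φ g : Perm Ω).cycleFactorsFinset, c ≠ c₁ → c ≠ c₂ → c ≠ c₃ →
        (φ s : Perm Ω) * c * (φ s : Perm Ω)⁻¹ = c

def T_AI : Prop := ∀ (Γ O : Type) [Group Γ] [Fintype O] [DecidableEq O] (θ : Γ →* Perm O),
    5 ≤ Fintype.card O → (∀ ρ : Perm O, ρ.IsThreeCycle → ρ ∈ θ.range) →
    ∀ S : Subgroup Γ, S.Normal → Group.IsSolvable S → S.index ≠ 0 →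
    (Fintype.card O).factorial ≤ 2 * S.index

def T_G8 : Prop := ∀ (L : Type) [Group L] [Finite L] (Ω : Type) [Fintype Ω]
    [DecidableEq Ω] (φ : L →* alternatingGroup Ω), Function.Surjective φ →
    ∀ K : Subgroup L, K.Normal → K ≤ φ.ker → ∀ ℓ : ℕ, ℓ.Prime → ¬ ℓ ∣ Nat.card K →
    (∀ t t' : L, (∃ k : ℕ, t ^ (3 ^ k) ∈ K) → (∃ k : ℕ, t' ^ (3 ^ k) ∈ K) →
      (φ t : Perm Ω).IsThreeCycle → (φ t' : Perm Ω).IsThreeCycle →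
      Equiv.Perm.Disjoint (φ t : Perm Ω) (φ t' : Perm Ω) → t * t' * t⁻¹ * t'⁻¹ ∈ K) →
    ∀ g : L, g ^ ℓ = 1 → ∀ c : ℕ, 5 ≤ c → ℓ * c ≤ (φ g : Perm Ω).support.card →
    ∀ S : Subgroup (Subgroup.centralizer ({g} : Set L)), S.Normal → Group.IsSolvable S →
    c.factorial ≤ 2 * S.index

def T_ZF : Prop := ∀ (G : Type) [Group G] [IsSimpleGroup G] (π : Finset ℕ), Cover G π →
    ∀ x : G, x ≠ 1 → ∃ (F : Finset G) (k : ℕ), ∀ (L : Subgroup G) (n : ℕ)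
      (φ : L →* alternatingGroup (Fin n)), Good π L n φ → (∀ y ∈ F, y ∈ L) → k ≤ n →
        ∀ hxL : x ∈ L, φ ⟨x, hxL⟩ ≠ 1

def T_FI : Prop := ∀ (G : Type) [Group G] [IsSimpleGroup G] [Infinite G] (H : Subgroup G),
    H.index ≠ 0 → H = ⊤

def T_F1 : Prop := ∀ (G : Type) [Group G] [IsSimpleGroup G] (I : Type) (U : Ultrafilter I)
    (n : I → ℕ) (act : ∀ i, G → Perm (Fin (n i))),
    (∀ y z : G, ∀ᶠ i in (U : Filter I), act i (y * z) = act i y * act i z) →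
    ∀ x₀ : G, x₀ ≠ 1 → ∀ B₀ : ℕ, (∀ᶠ i in (U : Filter I), (act i x₀).support.card ≤ B₀) →
    ∀ y : G, ∃ B : ℕ, ∀ᶠ i in (U : Filter I), (act i y).support.card ≤ B

def T_F2 : Prop := ∀ (G : Type) [Group G], (∀ H : Subgroup G, H.index ≠ 0 → H = ⊤) →
    ∀ (I : Type) (U : Ultrafilter I) (n : I → ℕ) (act : ∀ i, G → Perm (Fin (n i))),
    (∀ y z : G, ∀ᶠ i in (U : Filter I), act i (y * z) = act i y * act i z) →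
    (∀ y : G, y ≠ 1 → ∀ᶠ i in (U : Filter I), act i y ≠ 1) →
    (∀ y : G, ∃ B : ℕ, ∀ᶠ i in (U : Filter I), (act i y).support.card ≤ B) →
    ∀ E : Finset G, ∃ y : G, ∀ u ∈ E, ∀ v ∈ E, (y * u * y⁻¹) * v = v * (y * u * y⁻¹)

def T_F3 : Prop := ∀ (G : Type) [Group G] [IsSimpleGroup G] (π : Finset ℕ), Cover G π →
    ∀ (x₀ : G) (B₀ : ℕ), (∀ (F : Finset G) (k : ℕ), ∃ (L : Subgroup G) (n : ℕ)
      (φ : L →* alternatingGroup (Fin n)), Good π L n φ ∧ (∀ y ∈ F, y ∈ L) ∧ k ≤ n ∧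
        ∃ hx : x₀ ∈ L, (φ ⟨x₀, hx⟩ : Perm (Fin n)).support.card ≤ B₀) →
    ∃ (I : Type) (U : Ultrafilter I) (n : I → ℕ) (act : ∀ i, G → Perm (Fin (n i))),
      (∀ y z : G, ∀ᶠ i in (U : Filter I), act i (y * z) = act i y * act i z) ∧
      (∀ y : G, y ≠ 1 → ∀ᶠ i in (U : Filter I), act i y ≠ 1) ∧
      ∀ᶠ i in (U : Filter I), (act i x₀).support.card ≤ B₀

def T_F4 : Prop := ∀ (G : Type) [Group G],
    (∀ E : Finset G, ∃ y : G, ∀ u ∈ E, ∀ v ∈ E, (y * u * y⁻¹) * v = v * (y * u * y⁻¹)) →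
    ∀ E : Finset G, ¬ Group.IsSolvable (Subgroup.closure (E : Set G)) → ∀ (g : G)
    (H : Subgroup (Subgroup.centralizer ({g} : Set G))), H.index ≠ 0 → ¬ Group.IsSolvable H

def T_KI : Prop := ∀ (L : Type) [Group L] [Finite L] (Ω : Type) [Fintype Ω]
    [DecidableEq Ω] (φ : L →* alternatingGroup Ω), Function.Surjective φ → ∀ a : L,
    a ^ 3 = 1 →
    (φ a : Perm Ω).support.card ≤ 3 * Nat.card (Subgroup.centralizer ({a} : Set L))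

def T_WA : Prop := ∀ (G : Type) [Group G] (a : G), a ^ 3 = 1 →
    ∀ H : Subgroup (Subgroup.centralizer ({a} : Set G)), H.index ≠ 0 → Group.IsSolvable H →
    Infinite (Subgroup.centralizer ({a} : Set G)) →
    ∃ (S : Subgroup G) (m : ℕ) (h : G) (e : ℕ), (∀ x ∈ S, a * x = x * a) ∧ 0 < m ∧
      (∀ ℓ : ℕ, ℓ.Prime → ¬ ℓ ∣ m → ∀ x : G, a * x = x * a → (∃ k : ℕ, x ^ (ℓ ^ k) = 1) →
        x ∈ S) ∧
      h ∈ (derivedSeries S e).map S.subtype ∧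
      (derivedSeries S (e + 1)).map S.subtype ≤ Subgroup.zpowers a ∧
      h ∉ Subgroup.zpowers a

def T_UA : Prop := ∀ (G : Type) [Group G] [IsSimpleGroup G] (π : Finset ℕ), Cover G π →
    (∀ x : G, x ≠ 1 → ∀ B : ℕ, ∃ (F : Finset G) (k : ℕ), ∀ (L : Subgroup G) (n : ℕ)
      (φ : L →* alternatingGroup (Fin n)), Good π L n φ → (∀ y ∈ F, y ∈ L) → k ≤ n →
        ∀ hxL : x ∈ L, B < (φ ⟨x, hxL⟩ : Perm (Fin n)).support.card) → ¬ AS G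

def T_FIN : Prop := ∀ (G : Type) [Group G] [IsSimpleGroup G] (π : Finset ℕ), Cover G π →
    ¬ AS G

def T_U1 : Prop := ∀ (p : ℕ) [Fact p.Prime] (k : ℕ) (R : Type) [Group R] [Finite R],
    IsPGroup p R → ∀ U : Subgroup R, U.index ≤ p ^ k → derivedSeries R k ≤ U

def T_U2 : Prop := ∀ (p : ℕ) [Fact p.Prime] (k : ℕ), ∃ (Λ : Type) (_ : Group Λ)
    (_ : Finite Λ), IsPGroup p Λ ∧ derivedSeries Λ k ≠ ⊥

def T_U3 : Prop := ∀ (Λ : Type) [Group Λ] [Finite Λ] (n : ℕ), 2 * Nat.card Λ ≤ n →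
    ∃ f : Λ →* alternatingGroup (Fin n), Function.Injective f

def T_U4 : Prop := ∀ (p : ℕ) [Fact p.Prime] (m d : ℕ), ∃ n₀ : ℕ, ∀ (G : Type) [Group G],
    (∀ g : G, orderOf g = p → ∃ H : Subgroup (Subgroup.centralizer ({g} : Set G)),
      H.index ≠ 0 ∧ H.index ≤ m ∧ derivedSeries H d = ⊥) →
    ∀ (L : Subgroup G) [Finite L] (n : ℕ) (φ : L →* alternatingGroup (Fin n)),
      Function.Surjective φ → n < n₀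

end Pool.Agent.H11.NS
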